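import Mathlib

set_option autoImplicit false

namespace Pool.Agent.H21.Sph

open MeasureTheory Laplacian InnerProductSpace
open scoped ContDiff

variable {V : Type*} [NormedAddCommGroup V] [InnerProductSpace ℝ V]

/-- `F` is smooth away from the origin and positively homogeneous of degree `0`. -/
structure Hom0 (F : V → ℂ) : Prop where
  smooth : ContDiffOn ℝ ∞ F {0}ᶜ
  hom : ∀ (c : ℝ) (x : V), 0 < c → x ≠ 0 → F (c • x) = F x

theorem Hom0.contDiffAt {F : V → ℂ} (hF : Hom0 F) {x : V} (hx : x ≠ 0) : ContDiffAt ℝ ∞ F x :=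
  hF.smooth.contDiffAt (isOpen_compl_singleton.mem_nhds hx)

theorem Hom0.diffAt {F : V → ℂ} (hF : Hom0 F) {x : V} (hx : x ≠ 0) : DifferentiableAt ℝ F x :=
  (hF.contDiffAt hx).differentiableAt (by simp)

theorem Hom0.fderiv_contDiffAt {F : V → ℂ} (hF : Hom0 F) {x : V} (hx : x ≠ 0) :
    ContDiffAt ℝ ∞ (fderiv ℝ F) x :=
  (hF.contDiffAt hx).fderiv_right (m := ∞) (by simp)

theorem Hom0.fderiv_diffAt {F : V → ℂ} (hF : Hom0 F) {x : V} (hx : x ≠ 0) :
    DifferentiableAt ℝ (fderiv ℝ F) x :=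
  (hF.fderiv_contDiffAt hx).differentiableAt (by simp)

theorem Hom0.fderiv2_contDiffAt {F : V → ℂ} (hF : Hom0 F) {x : V} (hx : x ≠ 0) :
    ContDiffAt ℝ ∞ (fderiv ℝ (fderiv ℝ F)) x :=
  (hF.fderiv_contDiffAt hx).fderiv_right (m := ∞) (by simp)

/-- Euler: the radial derivative vanishes. -/
theorem Hom0.euler {F : V → ℂ} (hF : Hom0 F) {x : V} (hx : x ≠ 0) : fderiv ℝ F x x = 0 := by
  have h1 : HasDerivAt (fun t : ℝ => F (x + t • x)) (fderiv ℝ F x x) 0 := by
    have := ((hF.diffAt hx).hasFDerivAt.hasLineDerivAt x)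
    exact this
  have h2 : HasDerivAt (fun t : ℝ => F (x + t • x)) 0 0 := by
    apply (hasDerivAt_const (0 : ℝ) (F x)).congr_of_eventuallyEq
    have : ∀ᶠ t : ℝ in nhds 0, -1 < t := lt_mem_nhds (by norm_num)
    filter_upwards [this] with t ht
    have e : x + t • x = (1 + t) • x := by rw [add_smul, one_smul]
    rw [e, hF.hom _ _ (by linarith) hx]
  exact h1.unique h2

/-- scaling of the first derivative -/
theorem Hom0.fderiv_smul {F : V → ℂ} (hF : Hom0 F) {c : ℝ} (hc : 0 < c) {x : V} (hx : x ≠ 0) :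
    fderiv ℝ F x = c • fderiv ℝ F (c • x) := by
  have hcx : c • x ≠ 0 := smul_ne_zero hc.ne' hx
  have h1 : HasFDerivAt (fun y : V => F (c • y)) ((fderiv ℝ F (c • x)).comp (c • ContinuousLinearMap.id ℝ V)) x := by
    apply HasFDerivAt.comp (g := F) x (hF.diffAt hcx).hasFDerivAt
    exact (hasFDerivAt_id x).const_smul c
  have h2 : HasFDerivAt (fun y : V => F (c • y)) (fderiv ℝ F x) x := by
    apply (hF.diffAt hx).hasFDerivAt.congr_of_eventuallyEq
    filter_upwards [isOpen_compl_singleton.mem_nhds hx] with y hy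
    exact hF.hom c y hc hy
  rw [h2.unique h1]
  ext v
  simp

theorem Hom0.fderiv2_smul {F : V → ℂ} (hF : Hom0 F) {c : ℝ} (hc : 0 < c) {x : V} (hx : x ≠ 0) (v : V) :
    fderiv ℝ (fderiv ℝ F) x v v = (c ^ 2 : ℝ) • fderiv ℝ (fderiv ℝ F) (c • x) v v := by
  have hcx : c • x ≠ 0 := smul_ne_zero hc.ne' hx
  have h1 : HasFDerivAt (fun y : V => c • fderiv ℝ F (c • y))
      (c • (fderiv ℝ (fderiv ℝ F) (c • x)).comp (c • ContinuousLinearMap.id ℝ V)) x := by
    refine HasFDerivAt.const_smul (f := fun y : V => fderiv ℝ F (c • y)) ?_ c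
    apply HasFDerivAt.comp (g := fderiv ℝ F) x (hF.fderiv_diffAt hcx).hasFDerivAt
    exact (hasFDerivAt_id x).const_smul c
  have h2 : HasFDerivAt (fun y : V => c • fderiv ℝ F (c • y)) (fderiv ℝ (fderiv ℝ F) x) x := by
    apply (hF.fderiv_diffAt hx).hasFDerivAt.congr_of_eventuallyEq
    filter_upwards [isOpen_compl_singleton.mem_nhds hx] with y hy
    exact (hF.fderiv_smul hc hy).symm
  rw [h2.unique h1]
  simp [smul_smul, pow_two]

variable [FiniteDimensional ℝ V]

theorem lap_eq {ι : Type*} [Fintype ι] (b : OrthonormalBasis ι ℝ V) (F : V → ℂ) (x : V) :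
    (Δ F) x = ∑ i, fderiv ℝ (fderiv ℝ F) x (b i) (b i) := by
  rw [laplacian_eq_iteratedFDeriv_orthonormalBasis F b]
  simp [iteratedFDeriv_two_apply]

theorem Hom0.lap_smul {F : V → ℂ} (hF : Hom0 F) {c : ℝ} (hc : 0 < c) {x : V} (hx : x ≠ 0) :
    (Δ F) x = (c ^ 2 : ℝ) • (Δ F) (c • x) := by
  rw [lap_eq (stdOrthonormalBasis ℝ V), lap_eq (stdOrthonormalBasis ℝ V), Finset.smul_sum]
  exact Finset.sum_congr rfl (fun i _ => hF.fderiv2_smul hc hx _)

/-! ### radial cutoffs -/

/-- A continuous function of one variable supported in `[1/2, 3/2]`. -/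
structure Cut (φ : ℝ → ℝ) : Prop where
  cont : Continuous φ
  supp : ∀ t, t ∉ Set.Icc (1 / 2 : ℝ) (3 / 2) → φ t = 0

omit [InnerProductSpace ℝ V] [FiniteDimensional ℝ V] in
theorem cut_continuous {φ : ℝ → ℝ} (hφ : Cut φ) {G : V → ℂ} (hG : ContinuousOn G {0}ᶜ) :
    Continuous (fun x : V => φ (‖x‖ ^ 2) • G x) := by
  rw [continuous_iff_continuousAt]
  intro x
  by_cases hx : x = 0
  · subst hx
    have h1 : ∀ᶠ y : V in nhds 0, ‖y‖ ^ 2 < 1 / 2 := by
      have : ContinuousAt (fun y : V => ‖y‖ ^ 2) 0 := by fun_prop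
      apply this.eventually_lt_const
      simp
    have h2 : (fun x : V => φ (‖x‖ ^ 2) • G x) =ᶠ[nhds 0] fun _ => 0 := by
      filter_upwards [h1] with y hy
      rw [hφ.supp _ (by intro h; linarith [h.1]), zero_smul]
    exact (continuousAt_const).congr h2.symm
  · have h3 : ContinuousAt G x := hG.continuousAt (isOpen_compl_singleton.mem_nhds hx)
    have h4 : ContinuousAt (fun y : V => φ (‖y‖ ^ 2)) x :=
      (hφ.cont.comp (by fun_prop : Continuous fun y : V => ‖y‖ ^ 2)).continuousAt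
    exact h4.smul h3

theorem cut_compact {φ : ℝ → ℝ} (hφ : Cut φ) (G : V → ℂ) :
    HasCompactSupport (fun x : V => φ (‖x‖ ^ 2) • G x) := by
  apply HasCompactSupport.of_support_subset_isCompact (isCompact_closedBall (0 : V) 2)
  intro x hx
  rw [Function.mem_support] at hx
  rw [mem_closedBall_zero_iff]
  by_contra h
  apply hx
  rw [hφ.supp _ (by intro h'; nlinarith [h'.2]), zero_smul]

theorem cut_integrable [MeasurableSpace V] [BorelSpace V] {φ : ℝ → ℝ} (hφ : Cut φ) {G : V → ℂ}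
    (hG : ContinuousOn G {0}ᶜ) :
    Integrable (fun x : V => φ (‖x‖ ^ 2) • G x) (volume : Measure V) :=
  (cut_continuous hφ hG).integrable_of_hasCompactSupport (cut_compact hφ G)

/-- the standard bump -/
noncomputable def bump : ContDiffBump (1 : ℝ) := ⟨1 / 4, 1 / 2, by norm_num, by norm_num⟩

theorem bump_cut : Cut (fun t => bump t) where
  cont := bump.continuous
  supp := by
    intro t ht
    apply bump.zero_of_le_dist
    rw [Set.mem_Icc, not_and_or, not_le, not_le] at ht
    rw [Real.dist_eq]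
    show (1 / 2 : ℝ) ≤ |t - 1|
    rcases ht with h | h
    · rw [abs_of_nonpos (by linarith)]; linarith
    · rw [abs_of_nonneg (by linarith)]; linarith

theorem bump_deriv_cut : Cut (fun t => deriv (fun t => bump t) t) where
  cont := (bump.contDiff (n := 1)).continuous_deriv (by norm_num)
  supp := by
    intro t ht
    have h1 : ∀ᶠ s in nhds t, bump s = 0 := by
      have : IsOpen (Set.Icc (1 / 2 : ℝ) (3 / 2))ᶜ := isClosed_Icc.isOpen_compl
      filter_upwards [this.mem_nhds ht] with s hs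
      exact bump_cut.supp s hs
    have h2 : (fun s => bump s) =ᶠ[nhds t] fun _ => (0 : ℝ) := h1
    show deriv (fun s => bump s) t = 0
    rw [h2.deriv_eq]
    simp

theorem bump_smul_cut : Cut (fun t => bump t / t) where
  cont := by
    rw [continuous_iff_continuousAt]
    intro t
    by_cases ht : t = 0
    · subst ht
      have h1 : ∀ᶠ s : ℝ in nhds 0, s < 1 / 2 := gt_mem_nhds (by norm_num)
      have h2 : (fun t : ℝ => bump t / t) =ᶠ[nhds 0] fun _ => 0 := by
        filter_upwards [h1] with s hs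
        rw [bump_cut.supp _ (by intro h; linarith [h.1]), zero_div]
      exact continuousAt_const.congr h2.symm
    · exact bump.continuous.continuousAt.div continuousAt_id ht
  supp := by
    intro t ht
    show bump t / t = 0
    rw [bump_cut.supp t ht, zero_div]

variable [MeasurableSpace V] [BorelSpace V]

theorem green_aux {F G : V → ℂ} (hF : Hom0 F) (hG : Hom0 G) (v : V) :
    ∫ x : V, bump (‖x‖ ^ 2) • (F x * fderiv ℝ (fderiv ℝ G) x v v - G x * fderiv ℝ (fderiv ℝ F) x v v) =
    - ∫ x : V, deriv (fun t => bump t) (‖x‖ ^ 2) • ((2 * ⟪x, v⟫_ℝ : ℝ) • (F x * fderiv ℝ G x v - G x * fderiv ℝ F x v)) := by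
  have hFc : ContinuousOn F {0}ᶜ := hF.smooth.continuousOn
  have hGc : ContinuousOn G {0}ᶜ := hG.smooth.continuousOn
  have hF1 : ContinuousOn (fun x => fderiv ℝ F x v) {0}ᶜ := by
    intro x hx
    exact ((hF.fderiv_contDiffAt hx).continuousAt.clm_apply continuousAt_const).continuousWithinAt
  have hG1 : ContinuousOn (fun x => fderiv ℝ G x v) {0}ᶜ := by
    intro x hx
    exact ((hG.fderiv_contDiffAt hx).continuousAt.clm_apply continuousAt_const).continuousWithinAt
  have hF2 : ContinuousOn (fun x => fderiv ℝ (fderiv ℝ F) x v v) {0}ᶜ := by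
    intro x hx
    exact (((hF.fderiv2_contDiffAt hx).continuousAt.clm_apply continuousAt_const).clm_apply
      continuousAt_const).continuousWithinAt
  have hG2 : ContinuousOn (fun x => fderiv ℝ (fderiv ℝ G) x v v) {0}ᶜ := by
    intro x hx
    exact (((hG.fderiv2_contDiffAt hx).continuousAt.clm_apply continuousAt_const).clm_apply
      continuousAt_const).continuousWithinAt
  have hinner : ContinuousOn (fun x : V => (2 * ⟪x, v⟫_ℝ : ℝ)) {0}ᶜ := by fun_prop
  have key := integral_bilinear_hasLineDerivAt_right_eq_neg_left_of_integrable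
    (μ := (volume : Measure V)) (f := fun x : V => bump (‖x‖ ^ 2))
    (f' := fun x : V => deriv (fun t => bump t) (‖x‖ ^ 2) * (2 * ⟪x, v⟫_ℝ : ℝ))
    (g := fun x => F x * fderiv ℝ G x v - G x * fderiv ℝ F x v)
    (g' := fun x => F x * fderiv ℝ (fderiv ℝ G) x v v - G x * fderiv ℝ (fderiv ℝ F) x v v)
    (v := v) (B := ContinuousLinearMap.lsmul ℝ ℝ)
    (by
      have := cut_integrable bump_deriv_cut
        (G := fun x => (2 * ⟪x, v⟫_ℝ : ℝ) • (F x * fderiv ℝ G x v - G x * fderiv ℝ F x v))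
        (hinner.smul ((hFc.mul hG1).sub (hGc.mul hF1)))
      refine this.congr (Filter.Eventually.of_forall fun x => ?_)
      simp only [ContinuousLinearMap.lsmul_apply]
      rw [← mul_smul])
    (cut_integrable bump_cut
      (G := fun x => F x * fderiv ℝ (fderiv ℝ G) x v v - G x * fderiv ℝ (fderiv ℝ F) x v v)
      ((hFc.mul hG2).sub (hGc.mul hF2)))
    (cut_integrable bump_cut
      (G := fun x => F x * fderiv ℝ G x v - G x * fderiv ℝ F x v)
      ((hFc.mul hG1).sub (hGc.mul hF1)))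
    (by
      intro x _
      have h1 : HasFDerivAt (fun y : V => ‖y‖ ^ 2) (2 • innerSL ℝ x) x :=
        (hasStrictFDerivAt_norm_sq x).hasFDerivAt
      have h2 : HasDerivAt (fun t => bump t) (deriv (fun t => bump t) (‖x‖ ^ 2)) (‖x‖ ^ 2) := by
        apply DifferentiableAt.hasDerivAt
        exact (bump.contDiff (n := 1)).differentiable (by norm_num) _
      have h3 := (h2.comp_hasFDerivAt x h1).hasLineDerivAt v
      convert! h3 using 1
      simp)
    (by
      intro x hx
      have hx0 : x ≠ 0 := by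
        rintro rfl
        have h0 : (0 : V) ∉ tsupport (fun x : V => bump (‖x‖ ^ 2)) := by
          rw [notMem_tsupport_iff_eventuallyEq]
          have h1 : ∀ᶠ y : V in nhds 0, ‖y‖ ^ 2 < 1 / 2 := by
            have : ContinuousAt (fun y : V => ‖y‖ ^ 2) 0 := by fun_prop
            apply this.eventually_lt_const
            simp
          filter_upwards [h1] with y hy
          exact bump_cut.supp _ (by intro h; linarith [h.1])
        exact h0 hx
      have a1 := (hF.diffAt hx0).hasFDerivAt.hasLineDerivAt v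
      have a2 := (hG.diffAt hx0).hasFDerivAt.hasLineDerivAt v
      have a3 := ((hF.fderiv_diffAt hx0).hasFDerivAt.clm_apply (hasFDerivAt_const v x)).hasLineDerivAt v
      have a4 := ((hG.fderiv_diffAt hx0).hasFDerivAt.clm_apply (hasFDerivAt_const v x)).hasLineDerivAt v
      have a5 : HasDerivAt (fun t : ℝ => F (x + t • v) * fderiv ℝ G (x + t • v) v -
          G (x + t • v) * fderiv ℝ F (x + t • v) v) _ 0 := (HasDerivAt.mul a1 a4).sub (HasDerivAt.mul a2 a3)
      show HasDerivAt (fun t : ℝ => F (x + t • v) * fderiv ℝ G (x + t • v) v -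
          G (x + t • v) * fderiv ℝ F (x + t • v) v) _ 0
      convert! a5 using 1
      simp
      ring)
  simp only [ContinuousLinearMap.lsmul_apply] at key
  rw [key]
  congr 1
  apply integral_congr_ae
  filter_upwards with x
  rw [← mul_smul]

theorem green {F G : V → ℂ} (hF : Hom0 F) (hG : Hom0 G) :
    ∫ x : V, bump (‖x‖ ^ 2) • (F x * (Δ G) x - G x * (Δ F) x) = 0 := by
  set b := stdOrthonormalBasis ℝ V
  have hFc : ContinuousOn F {0}ᶜ := hF.smooth.continuousOn
  have hGc : ContinuousOn G {0}ᶜ := hG.smooth.continuousOn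
  have hF1 : ∀ v : V, ContinuousOn (fun x => fderiv ℝ F x v) {0}ᶜ := by
    intro v x hx
    exact ((hF.fderiv_contDiffAt hx).continuousAt.clm_apply continuousAt_const).continuousWithinAt
  have hG1 : ∀ v : V, ContinuousOn (fun x => fderiv ℝ G x v) {0}ᶜ := by
    intro v x hx
    exact ((hG.fderiv_contDiffAt hx).continuousAt.clm_apply continuousAt_const).continuousWithinAt
  have hF2 : ∀ v : V, ContinuousOn (fun x => fderiv ℝ (fderiv ℝ F) x v v) {0}ᶜ := by
    intro v x hx
    exact (((hF.fderiv2_contDiffAt hx).continuousAt.clm_apply continuousAt_const).clm_apply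
      continuousAt_const).continuousWithinAt
  have hG2 : ∀ v : V, ContinuousOn (fun x => fderiv ℝ (fderiv ℝ G) x v v) {0}ᶜ := by
    intro v x hx
    exact (((hG.fderiv2_contDiffAt hx).continuousAt.clm_apply continuousAt_const).clm_apply
      continuousAt_const).continuousWithinAt
  have hinner : ∀ v : V, ContinuousOn (fun x : V => (2 * ⟪x, v⟫_ℝ : ℝ)) {0}ᶜ := by intro v; fun_prop
  have e1 : ∀ x : V, bump (‖x‖ ^ 2) • (F x * (Δ G) x - G x * (Δ F) x) =
      ∑ i, bump (‖x‖ ^ 2) • (F x * fderiv ℝ (fderiv ℝ G) x (b i) (b i) -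
        G x * fderiv ℝ (fderiv ℝ F) x (b i) (b i)) := by
    intro x
    rw [lap_eq b, lap_eq b, ← Finset.smul_sum, Finset.sum_sub_distrib, Finset.mul_sum, Finset.mul_sum]
  simp only [e1]
  rw [integral_finsetSum _ (fun i _ =>
    cut_integrable bump_cut
      (G := fun x => F x * fderiv ℝ (fderiv ℝ G) x (b i) (b i) - G x * fderiv ℝ (fderiv ℝ F) x (b i) (b i))
      ((hFc.mul (hG2 (b i))).sub (hGc.mul (hF2 (b i)))))]
  simp only [green_aux hF hG]
  rw [Finset.sum_neg_distrib, ← integral_finsetSum _ (fun i _ =>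
    cut_integrable bump_deriv_cut
      (G := fun x => (2 * ⟪x, b i⟫_ℝ : ℝ) • (F x * fderiv ℝ G x (b i) - G x * fderiv ℝ F x (b i)))
      ((hinner (b i)).smul ((hFc.mul (hG1 (b i))).sub (hGc.mul (hF1 (b i))))))]
  rw [neg_eq_zero]
  apply integral_eq_zero_of_ae
  filter_upwards with x
  by_cases hx : x = 0
  · subst hx
    simp only [inner_zero_left, mul_zero, zero_smul, smul_zero, Finset.sum_const_zero, Pi.zero_apply]
  have hsum : ∀ H : V → ℂ, ∑ i, ((2 * ⟪x, b i⟫_ℝ : ℝ) : ℂ) * fderiv ℝ H x (b i) = 2 * fderiv ℝ H x x := by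
    intro H
    have h1 : fderiv ℝ H x x = ∑ i, (⟪x, b i⟫_ℝ : ℂ) * fderiv ℝ H x (b i) := by
      have h0 : fderiv ℝ H x x = fderiv ℝ H x (∑ i, ⟪b i, x⟫_ℝ • b i) := by rw [b.sum_repr' x]
      rw [h0, map_sum]
      apply Finset.sum_congr rfl
      intro i _
      rw [map_smul, real_inner_comm x (b i), Complex.real_smul]
    rw [h1, Finset.mul_sum]
    apply Finset.sum_congr rfl
    intro i _
    push_cast
    ring
  have h3 : ∑ i, deriv (fun t => bump t) (‖x‖ ^ 2) • ((2 * ⟪x, b i⟫_ℝ : ℝ) •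
      (F x * fderiv ℝ G x (b i) - G x * fderiv ℝ F x (b i))) =
      deriv (fun t => bump t) (‖x‖ ^ 2) • (F x * (2 * fderiv ℝ G x x) - G x * (2 * fderiv ℝ F x x)) := by
    rw [← Finset.smul_sum, ← hsum G, ← hsum F, Finset.mul_sum, Finset.mul_sum, ← Finset.sum_sub_distrib]
    congr 1
    apply Finset.sum_congr rfl
    intro i _
    rw [Complex.real_smul]
    ring
  rw [h3, hF.euler hx, hG.euler hx]
  simp

/-- Orthogonality of eigenfunctions for different eigenvalues. -/
theorem orthogonal {F G : V → ℂ} (hF : Hom0 F) (hG : Hom0 G) {a b : ℂ}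
    (ha : ∀ x : V, ‖x‖ = 1 → (Δ F) x = - a * F x) (hb : ∀ x : V, ‖x‖ = 1 → (Δ G) x = - b * G x)
    (hab : a ≠ b) : ∫ x : V, (bump (‖x‖ ^ 2) / ‖x‖ ^ 2) • (F x * G x) = 0 := by
  have ext : ∀ {F : V → ℂ} (_ : Hom0 F) {a : ℂ} (_ : ∀ x : V, ‖x‖ = 1 → (Δ F) x = - a * F x) (x : V),
      x ≠ 0 → (Δ F) x = - a * F x / (‖x‖ ^ 2 : ℝ) := by
    intro F hF a ha x hx
    have hx' : 0 < ‖x‖ := norm_pos_iff.mpr hx
    have h1 := hF.lap_smul (c := ‖x‖⁻¹) (inv_pos.mpr hx') hx
    have h2 : ‖‖x‖⁻¹ • x‖ = 1 := by rw [norm_smul, norm_inv, norm_norm, inv_mul_cancel₀ hx'.ne']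
    rw [ha _ h2, hF.hom _ _ (inv_pos.mpr hx') hx] at h1
    rw [h1, Complex.real_smul]
    push_cast
    field_simp
  have h := green hF hG
  have h2 : ∫ x : V, bump (‖x‖ ^ 2) • (F x * (Δ G) x - G x * (Δ F) x) =
      (a - b) * ∫ x : V, (bump (‖x‖ ^ 2) / ‖x‖ ^ 2) • (F x * G x) := by
    rw [← integral_const_mul]
    apply integral_congr_ae
    filter_upwards with x
    by_cases hx : x = 0
    · subst hx
      have : bump (‖(0 : V)‖ ^ 2) = 0 := bump_cut.supp _ (by simp)
      rw [this]; simp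
    · rw [ext hF ha x hx, ext hG hb x hx, Complex.real_smul, Complex.real_smul]
      have hx' : (‖x‖ : ℂ) ≠ 0 := by
        exact_mod_cast (norm_pos_iff.mpr hx).ne'
      push_cast
      field_simp
      ring
  rw [h2] at h
  rcases mul_eq_zero.mp h with h | h
  · exact absurd (sub_eq_zero.mp h) hab
  · exact h

end Pool.Agent.H21.Sph
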