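import Mathlib
import Pool.Agent.H21.Sph.Green
import Pool.Agent.H21.Lens.Harm

set_option autoImplicit false

namespace Pool.Agent.H21.Sph

open MeasureTheory Laplacian InnerProductSpace MvPolynomial Pool.Agent.H21.Lens
open scoped ContDiff ComplexConjugate

variable {n : ℕ}

/-- `ℂ^n` with its Euclidean structure. -/
abbrev E (n : ℕ) := EuclideanSpace ℂ (Fin n)

/-- the values of `z_j` and of their conjugates at a point -/
noncomputable def pt (x : E n) : Fin n ⊕ Fin n → ℂ := Sum.elim (fun j => x j) (fun j => conj (x j))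

/-- the value of a polynomial in `z, zbar` at a point -/
noncomputable def ev (P : MP n) (x : E n) : ℂ := eval (pt x) P

theorem ev_add (P Q : MP n) (x : E n) : ev (P + Q) x = ev P x + ev Q x := by simp [ev]
theorem ev_mul (P Q : MP n) (x : E n) : ev (P * Q) x = ev P x * ev Q x := by simp [ev]
theorem ev_C (a : ℂ) (x : E n) : ev (C a) x = a := by simp [ev]
theorem ev_X (i : Fin n ⊕ Fin n) (x : E n) : ev (X i) x = pt x i := by simp [ev]
theorem ev_sum {ι : Type*} (s : Finset ι) (f : ι → MP n) (x : E n) :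
    ev (∑ i ∈ s, f i) x = ∑ i ∈ s, ev (f i) x := by simp [ev]
theorem ev_smul (a : ℂ) (P : MP n) (x : E n) : ev (a • P) x = a * ev P x := by simp [ev]
theorem ev_zero (x : E n) : ev (0 : MP n) x = 0 := by simp [ev]

theorem pt_add (x y : E n) : pt (x + y) = pt x + pt y := by
  ext i; rcases i with i | i <;> simp [pt]

theorem pt_smul (t : ℝ) (x : E n) : pt (t • x) = fun i => (t : ℂ) * pt x i := by
  ext i; rcases i with i | i <;> simp [pt]

/-- derivative of a polynomial in direction `v` -/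
noncomputable def Dd (v : E n) (P : MP n) : MP n := ∑ i, C (pt v i) * pderiv i P

theorem Dd_C (v : E n) (a : ℂ) : Dd v (C a) = 0 := by simp [Dd]

theorem Dd_add (v : E n) (P Q : MP n) : Dd v (P + Q) = Dd v P + Dd v Q := by
  simp only [Dd, map_add, mul_add, Finset.sum_add_distrib]

theorem Dd_mul (v : E n) (P Q : MP n) : Dd v (P * Q) = Dd v P * Q + P * Dd v Q := by
  simp only [Dd, pderiv_mul, Finset.sum_mul, Finset.mul_sum, ← Finset.sum_add_distrib]
  apply Finset.sum_congr rfl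
  intro i _
  ring

theorem Dd_X (v : E n) (i : Fin n ⊕ Fin n) : Dd v (X i) = C (pt v i) := by
  classical
  unfold Dd
  rw [Finset.sum_eq_single i]
  · simp
  · intro j _ hj
    rw [pderiv_X_of_ne (Ne.symm hj), mul_zero]
  · simp

theorem ev_hasDerivAt (P : MP n) (x v : E n) (t : ℝ) :
    HasDerivAt (fun t : ℝ => ev P (x + t • v)) (ev (Dd v P) (x + t • v)) t := by
  induction P using MvPolynomial.induction_on with
  | C a => simpa [Dd_C, ev_C, ev_zero] using hasDerivAt_const t a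
  | add P Q hP hQ =>
    simp only [Dd_add, ev_add]
    exact hP.add hQ
  | mul_X P i hP =>
    have h1 : HasDerivAt (fun t : ℝ => pt (x + t • v) i) (pt v i) t := by
      have e : (fun t : ℝ => pt (x + t • v) i) = fun t : ℝ => pt x i + (t : ℂ) * pt v i := by
        ext s
        rw [pt_add, pt_smul]
        simp
      rw [e]
      have h2 : HasDerivAt (fun t : ℝ => (t : ℂ)) 1 t := by
        simpa using (hasDerivAt_id t).ofReal_comp
      simpa using (h2.mul_const (pt v i)).const_add (pt x i)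
    have h3 := hP.mul h1
    simp only [ev_mul, ev_X, Dd_mul, Dd_X, ev_add, ev_C]
    exact h3

theorem pt_contDiff (i : Fin n ⊕ Fin n) : ContDiff ℝ ∞ (fun x : E n => pt x i) := by
  have h : ∀ j : Fin n, ContDiff ℝ ∞ (fun x : E n => x j) := by
    intro j
    exact contDiff_piLp_apply 2
  rcases i with j | j
  · exact h j
  · exact Complex.conjCLE.contDiff.comp (h j)

theorem ev_contDiff (P : MP n) : ContDiff ℝ ∞ (ev P) := by
  induction P using MvPolynomial.induction_on with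
  | C a =>
    have : ev (C a : MP n) = fun _ => a := by ext x; exact ev_C a x
    rw [this]; exact contDiff_const
  | add P Q hP hQ =>
    have : ev (P + Q) = fun x => ev P x + ev Q x := by ext x; exact ev_add P Q x
    rw [this]; exact hP.add hQ
  | mul_X P i hP =>
    have : ev (P * X i) = fun x => ev P x * pt x i := by ext x; rw [ev_mul, ev_X]
    rw [this]; exact hP.mul (pt_contDiff i)

theorem ev_smul_real {k : ℕ} {P : MP n} (hP : P.IsHomogeneous k) (c : ℝ) (x : E n) :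
    ev P (c • x) = (c : ℂ) ^ k * ev P x := by
  unfold ev
  rw [MvPolynomial.eval_eq', MvPolynomial.eval_eq', Finset.mul_sum]
  apply Finset.sum_congr rfl
  intro d hd
  rw [pt_smul]
  simp only [mul_pow, Finset.prod_mul_distrib]
  rw [Finset.prod_pow_eq_pow_sum]
  have h1 : ∑ i, d i = k := by
    have := hP (mem_support_iff.mp hd)
    rw [Finsupp.weight_apply, Finsupp.sum_fintype _ _ (by simp)] at this
    simpa using this
  rw [h1]; ring

/-- the degree-zero homogeneous function attached to a polynomial -/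
noncomputable def F0 (P : MP n) (x : E n) : ℂ := ev P (‖x‖⁻¹ • x)

theorem F0_hom0 (P : MP n) : Hom0 (F0 P) where
  smooth := by
    have h1 : ContDiffOn ℝ ∞ (fun x : E n => ‖x‖⁻¹ • x) {0}ᶜ := by
      intro x hx
      have h2 : ContDiffAt ℝ ∞ (fun x : E n => ‖x‖) x := contDiffAt_norm ℝ hx
      exact ((h2.inv (norm_ne_zero_iff.mpr hx)).smul contDiffAt_id).contDiffWithinAt
    exact (ev_contDiff P).comp_contDiffOn h1
  hom := by
    intro c x hc hx
    unfold F0
    congr 1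
    rw [norm_smul, Real.norm_of_nonneg hc.le, smul_smul, mul_inv, mul_comm c⁻¹, mul_assoc,
      inv_mul_cancel₀ hc.ne', mul_one]

theorem norm_sq_line (x v : E n) (t : ℝ) :
    ‖x + t • v‖ ^ 2 = ‖x‖ ^ 2 + 2 * t * ⟪x, v⟫_ℝ + t ^ 2 * ‖v‖ ^ 2 := by
  rw [norm_add_sq_real, inner_smul_right, norm_smul, mul_pow, Real.norm_eq_abs, sq_abs]
  ring

/-- second derivative along a line of the degree-zero extension of a homogeneous polynomial -/
theorem F0_second {k : ℕ} {P : MP n} (hP : P.IsHomogeneous k) {x : E n} (hx : ‖x‖ = 1) (v : E n) :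
    fderiv ℝ (fderiv ℝ (F0 P)) x v v = ev (Dd v (Dd v P)) x - 2 * k * ⟪x, v⟫_ℝ * ev (Dd v P) x
      + (k * (k + 2) * ⟪x, v⟫_ℝ ^ 2 - k * ‖v‖ ^ 2 : ℝ) * ev P x := by
  have hx0 : x ≠ 0 := by rintro rfl; simp at hx
  have hF := F0_hom0 P
  set N : ℝ → ℝ := fun t => ‖x‖ ^ 2 + 2 * t * ⟪x, v⟫_ℝ + t ^ 2 * ‖v‖ ^ 2 with hN
  have hNd : ∀ t, HasDerivAt N (2 * ⟪x, v⟫_ℝ + 2 * t * ‖v‖ ^ 2) t := by
    intro t
    have h1 : HasDerivAt (fun t : ℝ => t) 1 t := hasDerivAt_id t
    have h2 := (((h1.const_mul 2).mul_const ⟪x, v⟫_ℝ).const_add (‖x‖ ^ 2)).add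
      ((h1.pow 2).mul_const (‖v‖ ^ 2))
    convert! h2 using 1
    simp
  have hN0 : N 0 = 1 := by simp [hN, hx]
  have hNc : Continuous N := by fun_prop
  have hNpos : ∀ᶠ t in nhds (0 : ℝ), 0 < N t := by
    apply hNc.continuousAt.eventually_const_lt
    rw [hN0]; norm_num
  -- formula for F0 along the line
  have hF0 : ∀ᶠ t in nhds (0 : ℝ), F0 P (x + t • v) = ((N t ^ (-(k : ℝ) / 2) : ℝ) : ℂ) * ev P (x + t • v) := by
    filter_upwards [hNpos] with t ht
    unfold F0
    rw [ev_smul_real hP]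
    congr 1
    have h1 : ‖x + t • v‖ ^ 2 = N t := norm_sq_line x v t
    have h2 : (N t ^ (-(k : ℝ) / 2) : ℝ) = ‖x + t • v‖⁻¹ ^ k := by
      rw [← h1, ← Real.rpow_natCast (‖x + t • v‖) 2, ← Real.rpow_mul (norm_nonneg _)]
      have : ((2 : ℕ) : ℝ) * (-(k : ℝ) / 2) = -(k : ℝ) := by push_cast; ring
      rw [this, Real.rpow_neg (norm_nonneg _), Real.rpow_natCast, inv_pow]
    rw [h2]
    push_cast
    rfl
  -- first derivative
  have hxt : ∀ᶠ t in nhds (0 : ℝ), x + t • v ≠ 0 := by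
    have : ContinuousAt (fun t : ℝ => x + t • v) 0 := by fun_prop
    apply this.eventually_ne
    simpa using hx0
  have hd1 : ∀ᶠ t in nhds (0 : ℝ), HasDerivAt (fun s : ℝ => F0 P (x + s • v))
      (fderiv ℝ (F0 P) (x + t • v) v) t := by
    filter_upwards [hxt] with t ht
    have h1 := (hF.diffAt ht).hasFDerivAt
    have h2 : HasDerivAt (fun s : ℝ => x + s • v) v t := by
      simpa using ((hasDerivAt_id t).smul_const v).const_add x
    exact HasFDerivAt.comp_hasDerivAt (l := F0 P) (f := fun s : ℝ => x + s • v) t h1 h2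
  have hd1' : ∀ᶠ t in nhds (0 : ℝ), HasDerivAt (fun s : ℝ => ((N s ^ (-(k : ℝ) / 2) : ℝ) : ℂ) * ev P (x + s • v))
      ((((2 * ⟪x, v⟫_ℝ + 2 * t * ‖v‖ ^ 2) * (-(k : ℝ) / 2) * N t ^ (-(k : ℝ) / 2 - 1) : ℝ) : ℂ) * ev P (x + t • v)
        + ((N t ^ (-(k : ℝ) / 2) : ℝ) : ℂ) * ev (Dd v P) (x + t • v)) t := by
    filter_upwards [hNpos] with t ht
    have h1 := ((hNd t).rpow_const (p := -(k : ℝ) / 2) (Or.inl ht.ne')).ofReal_comp
    exact h1.mul (ev_hasDerivAt P x v t)
  have heq : (fun t : ℝ => fderiv ℝ (F0 P) (x + t • v) v) =ᶠ[nhds 0] fun t : ℝ =>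
      ((((2 * ⟪x, v⟫_ℝ + 2 * t * ‖v‖ ^ 2) * (-(k : ℝ) / 2) * N t ^ (-(k : ℝ) / 2 - 1) : ℝ) : ℂ) * ev P (x + t • v)
        + ((N t ^ (-(k : ℝ) / 2) : ℝ) : ℂ) * ev (Dd v P) (x + t • v)) := by
    have h5 := hF0.eventually_nhds
    filter_upwards [hd1, hd1', h5] with t h1 h2 h3
    exact h1.unique (h2.congr_of_eventuallyEq h3)
  -- second derivative
  have hd2 : HasDerivAt (fun t : ℝ => fderiv ℝ (F0 P) (x + t • v) v) (fderiv ℝ (fderiv ℝ (F0 P)) x v v) 0 := by
    have h1 := (hF.fderiv_diffAt hx0).hasFDerivAt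
    have h2 := (h1.clm_apply (hasFDerivAt_const v x)).hasLineDerivAt v
    have h3 : HasDerivAt (fun t : ℝ => fderiv ℝ (F0 P) (x + t • v) v) _ 0 := h2
    convert! h3 using 1
    simp
  have hd2' : HasDerivAt (fun t : ℝ =>
      ((((2 * ⟪x, v⟫_ℝ + 2 * t * ‖v‖ ^ 2) * (-(k : ℝ) / 2) * N t ^ (-(k : ℝ) / 2 - 1) : ℝ) : ℂ) * ev P (x + t • v)
        + ((N t ^ (-(k : ℝ) / 2) : ℝ) : ℂ) * ev (Dd v P) (x + t • v)))
      ((((2 * ‖v‖ ^ 2 * (-(k : ℝ) / 2) + (2 * ⟪x, v⟫_ℝ) * (-(k : ℝ) / 2) * ((2 * ⟪x, v⟫_ℝ) * (-(k : ℝ) / 2 - 1)) : ℝ) : ℂ) * ev P x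
        + (((2 * ⟪x, v⟫_ℝ) * (-(k : ℝ) / 2) : ℝ) : ℂ) * ev (Dd v P) x)
        + ((((2 * ⟪x, v⟫_ℝ) * (-(k : ℝ) / 2) : ℝ) : ℂ) * ev (Dd v P) x + ev (Dd v (Dd v P)) x)) 0 := by
    have h0 : HasDerivAt (fun t : ℝ => (2 * ⟪x, v⟫_ℝ + 2 * t * ‖v‖ ^ 2) * (-(k : ℝ) / 2))
        (2 * ‖v‖ ^ 2 * (-(k : ℝ) / 2)) 0 := by
      have h1 : HasDerivAt (fun t : ℝ => t) 1 0 := hasDerivAt_id 0
      have h2 := ((((h1.const_mul 2).mul_const (‖v‖ ^ 2)).const_add (2 * ⟪x, v⟫_ℝ))).mul_const (-(k : ℝ) / 2)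
      convert! h2 using 1
      simp
    have h1 := (hNd 0).rpow_const (p := -(k : ℝ) / 2 - 1) (Or.inl (by rw [hN0]; norm_num))
    have h2 := (h0.mul h1).ofReal_comp
    have h3 := h2.mul (ev_hasDerivAt P x v 0)
    have h4 := ((hNd 0).rpow_const (p := -(k : ℝ) / 2) (Or.inl (by rw [hN0]; norm_num))).ofReal_comp
    have h5 := h4.mul (ev_hasDerivAt (Dd v P) x v 0)
    have h6 := h3.add h5
    convert! h6 using 1
    simp [hN0]
  have hfin := hd2.unique (hd2'.congr_of_eventuallyEq heq)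
  rw [hfin]
  push_cast
  ring


/-- the real orthonormal basis `e_j, i e_j` -/
noncomputable def bas (n : ℕ) : OrthonormalBasis (Σ _ : Fin n, Fin 2) ℝ (E n) :=
  Pi.orthonormalBasis (fun _ => Complex.orthonormalBasisOneI)

theorem pt_bas0 (j : Fin n) : pt (bas n ⟨j, 0⟩) = fun i => Sum.elim (Pi.single j (1 : ℂ)) (Pi.single j 1) i := by
  ext i
  rcases i with i | i <;> simp [pt, bas, Pi.single_apply] <;> split_ifs <;> simp_all

theorem pt_bas1 (j : Fin n) : pt (bas n ⟨j, 1⟩) =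
    fun i => Sum.elim (Pi.single j (Complex.I)) (Pi.single j (-Complex.I)) i := by
  ext i
  rcases i with i | i <;> simp [pt, bas, Pi.single_apply] <;> split_ifs <;> simp_all

theorem Dd_bas0 (j : Fin n) (P : MP n) : Dd (bas n ⟨j, 0⟩) P =
    pderiv (Sum.inl j) P + pderiv (Sum.inr j) P := by
  classical
  unfold Dd
  rw [pt_bas0, Fintype.sum_sum_type]
  congr 1
  · rw [Finset.sum_eq_single j] <;> simp +contextual [Pi.single_apply]
  · rw [Finset.sum_eq_single j] <;> simp +contextual [Pi.single_apply]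

theorem Dd_bas1 (j : Fin n) (P : MP n) : Dd (bas n ⟨j, 1⟩) P =
    C Complex.I * pderiv (Sum.inl j) P - C Complex.I * pderiv (Sum.inr j) P := by
  classical
  unfold Dd
  rw [pt_bas1, Fintype.sum_sum_type, sub_eq_add_neg]
  congr 1
  · rw [Finset.sum_eq_single j] <;> simp +contextual [Pi.single_apply]
  · rw [Finset.sum_eq_single j] <;> simp +contextual [Pi.single_apply]

theorem pderiv_comm' (i j : Fin n ⊕ Fin n) (P : MP n) : pderiv i (pderiv j P) = pderiv j (pderiv i P) := by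
  classical
  induction P using MvPolynomial.induction_on with
  | C a => simp
  | add P Q hP hQ => simp [hP, hQ]
  | mul_X P k hP =>
    simp only [pderiv_mul, map_add, hP]
    have h1 : ∀ a b : Fin n ⊕ Fin n, pderiv a (pderiv b (X k : MP n)) = 0 := by
      intro a b
      by_cases hb : k = b
      · subst hb; simp
      · rw [pderiv_X_of_ne hb, map_zero]
    rw [h1, h1]
    ring

theorem sum_Dd_Dd (P : MP n) : ∑ i, Dd (bas n i) (Dd (bas n i) P) = 4 * Lap P := by
  rw [Lap_apply, Finset.mul_sum, ← Finset.univ_sigma_univ, Finset.sum_sigma]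
  apply Finset.sum_congr rfl
  intro j _
  rw [Fin.sum_univ_two, Dd_bas0, Dd_bas0, Dd_bas1, Dd_bas1]
  simp only [map_add, map_sub, pderiv_C_mul]
  have hI : (C Complex.I : MP n) * C Complex.I = -1 := by
    rw [← C_mul, Complex.I_mul_I]; simp
  have hc := pderiv_comm' (Sum.inl j) (Sum.inr j) P
  rw [← hc]
  linear_combination (pderiv (Sum.inl j) (pderiv (Sum.inl j) P) +
    pderiv (Sum.inr j) (pderiv (Sum.inr j) P) - 2 * pderiv (Sum.inl j) (pderiv (Sum.inr j) P)) * hI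

theorem ev_Dd (v : E n) (P : MP n) (x : E n) : ev (Dd v P) x = ∑ i, pt v i * ev (pderiv i P) x := by
  simp [Dd, ev]

theorem sum_inner_Dd {k : ℕ} {P : MP n} (hP : P.IsHomogeneous k) (x : E n) :
    ∑ i, (⟪x, bas n i⟫_ℝ : ℂ) * ev (Dd (bas n i) P) x = k * ev P x := by
  simp only [ev_Dd, Finset.mul_sum]
  rw [Finset.sum_comm]
  have h1 : ∀ j : Fin n ⊕ Fin n, ∑ i, (⟪x, bas n i⟫_ℝ : ℂ) * (pt (bas n i) j * ev (pderiv j P) x) =
      pt x j * ev (pderiv j P) x := by
    intro j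
    have h2 : pt x j = ∑ i, (⟪x, bas n i⟫_ℝ : ℂ) * pt (bas n i) j := by
      have h3 : pt x j = pt (∑ i, ⟪bas n i, x⟫_ℝ • bas n i) j := by rw [(bas n).sum_repr' x]
      rw [h3]
      have h4 : ∀ (s : Finset (Σ _ : Fin n, Fin 2)) (f : (Σ _ : Fin n, Fin 2) → E n),
          pt (∑ i ∈ s, f i) j = ∑ i ∈ s, pt (f i) j := by
        intro s f
        classical
        induction s using Finset.induction_on with
        | empty => rcases j with j | j <;> simp [pt]
        | insert a s ha ih => rw [Finset.sum_insert ha, Finset.sum_insert ha, pt_add, Pi.add_apply, ih]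
      rw [h4]
      apply Finset.sum_congr rfl
      intro i _
      rw [pt_smul, real_inner_comm]
    rw [h2, Finset.sum_mul]
    apply Finset.sum_congr rfl
    intro i _
    ring
  simp only [h1]
  have h5 := congrArg (fun Q => ev Q x) hP.sum_X_mul_pderiv
  simp only [ev_sum, ev_mul, ev_X, nsmul_eq_mul] at h5
  rw [h5]
  simp [ev]

/-- The degree-zero extension of a harmonic homogeneous polynomial is an eigenfunction. -/
theorem F0_lap {k : ℕ} {P : MP n} (hP : P.IsHomogeneous k) (hL : Lap P = 0) {x : E n} (hx : ‖x‖ = 1) :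
    (Δ (F0 P)) x = - ((k * (k + 2 * n - 2) : ℝ) : ℂ) * F0 P x := by
  rw [lap_eq (bas n)]
  simp only [F0_second hP hx]
  rw [Finset.sum_add_distrib, Finset.sum_sub_distrib]
  have h1 : ∑ i, ev (Dd (bas n i) (Dd (bas n i) P)) x = 0 := by
    rw [← ev_sum, sum_Dd_Dd, hL, mul_zero, ev_zero]
  have h2 : ∑ i, 2 * (k : ℂ) * (⟪x, bas n i⟫_ℝ : ℂ) * ev (Dd (bas n i) P) x = 2 * k * (k * ev P x) := by
    rw [← sum_inner_Dd hP x, Finset.mul_sum]
    apply Finset.sum_congr rfl
    intro i _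
    ring
  have h3 : ∑ i, ((k * (k + 2) * ⟪x, bas n i⟫_ℝ ^ 2 - k * ‖bas n i‖ ^ 2 : ℝ) : ℂ) * ev P x =
      ((k * (k + 2) - k * (2 * n) : ℝ) : ℂ) * ev P x := by
    rw [← Finset.sum_mul]
    congr 1
    rw [← Complex.ofReal_sum]
    congr 1
    rw [Finset.sum_sub_distrib, ← Finset.mul_sum]
    have h4 : ∑ i, ⟪x, bas n i⟫_ℝ ^ 2 = 1 := by
      have := (bas n).sum_sq_norm_inner_left x
      rw [hx] at this
      simpa using this
    rw [h4]
    simp [OrthonormalBasis.norm_eq_one]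
    ring
  have h5 : F0 P x = ev P x := by unfold F0; rw [hx]; simp
  rw [h1, h2, h3, h5]
  push_cast
  ring

end Pool.Agent.H21.Sph
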