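import Mathlib
import Pool.Agent.H21.Sph.Poly

set_option autoImplicit false

namespace Pool.Agent.H21.Sph

open MeasureTheory Laplacian InnerProductSpace MvPolynomial Pool.Agent.H21.Lens
open scoped ContDiff ComplexConjugate

variable {n : ℕ}

/-! ### a polynomial in `z, zbar` vanishing everywhere is zero -/

/-- substitution `z = x + i y`, `zbar = x - i y` -/
noncomputable def subA : MP n →ₐ[ℂ] MP n := aeval (Sum.elim
  (fun j => X (Sum.inl j) + C Complex.I * X (Sum.inr j))
  (fun j => X (Sum.inl j) - C Complex.I * X (Sum.inr j)))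

/-- inverse substitution -/
noncomputable def subB : MP n →ₐ[ℂ] MP n := aeval (Sum.elim
  (fun j => C (1 / 2) * (X (Sum.inl j) + X (Sum.inr j)))
  (fun j => C (- Complex.I / 2) * (X (Sum.inl j) - X (Sum.inr j))))

theorem subB_subA (P : MP n) : subB (subA P) = P := by
  have h : (subB.comp subA : MP n →ₐ[ℂ] MP n) = AlgHom.id ℂ _ := by
    apply MvPolynomial.algHom_ext
    have hI : (C Complex.I : MP n) * C (- Complex.I / 2) = C (1 / 2) := by
      rw [← C_mul]
      congr 1
      have := Complex.I_mul_I
      linear_combination (-1 / 2) * this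
    have h2 : (C (1 / 2 : ℂ) : MP n) + C (1 / 2) = 1 := by
      rw [← C_add]; norm_num
    intro i
    rcases i with j | j
    · simp only [subA, subB, AlgHom.comp_apply, aeval_X, Sum.elim_inl, map_add, map_mul,
        algHom_C, AlgHom.coe_id, id_eq, Sum.elim_inr, algebraMap_eq]
      linear_combination (X (Sum.inl j) - X (Sum.inr j)) * hI + X (Sum.inl j) * h2
    · simp only [subA, subB, AlgHom.comp_apply, aeval_X, Sum.elim_inl, map_sub, map_mul,
        algHom_C, AlgHom.coe_id, id_eq, Sum.elim_inr, algebraMap_eq]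
      linear_combination (- (X (Sum.inl j) - X (Sum.inr j))) * hI + X (Sum.inr j) * h2
  exact congrArg (fun f : MP n →ₐ[ℂ] MP n => f P) h

theorem ev_eq_zero {P : MP n} (h : ∀ x : E n, ev P x = 0) : P = 0 := by
  have h1 : subA P = 0 := by
    apply MvPolynomial.funext_set (fun _ => Set.range (fun t : ℝ => (t : ℂ)))
    · intro _
      exact Set.infinite_range_of_injective Complex.ofReal_injective
    · intro y hy
      have hy' : ∀ i, ∃ t : ℝ, (t : ℂ) = y i := fun i => hy i (Set.mem_univ i)
      choose t ht using hy'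
      have hc : ∀ i, conj (y i) = y i := by intro i; rw [← ht i]; exact Complex.conj_ofReal _
      rw [map_zero]
      have h2 := h (WithLp.toLp 2 (fun j => (t (Sum.inl j) : ℂ) + Complex.I * t (Sum.inr j)))
      rw [← h2]
      unfold ev subA
      rw [aeval_def, eval₂_eq_eval_map]
      have : eval y (eval₂ (algebraMap ℂ (MP n)) (Sum.elim
          (fun j => X (Sum.inl j) + C Complex.I * X (Sum.inr j))
          (fun j => X (Sum.inl j) - C Complex.I * X (Sum.inr j))) P) =
          eval (pt (WithLp.toLp 2 (fun j => (t (Sum.inl j) : ℂ) + Complex.I * t (Sum.inr j)) : E n)) P := by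
        rw [← coe_eval₂Hom]
        have h3 : ((eval y).comp (eval₂Hom (algebraMap ℂ (MP n)) (Sum.elim
          (fun j => X (Sum.inl j) + C Complex.I * X (Sum.inr j))
          (fun j => X (Sum.inl j) - C Complex.I * X (Sum.inr j))))) =
            eval (pt (WithLp.toLp 2 (fun j => (t (Sum.inl j) : ℂ) + Complex.I * t (Sum.inr j)) : E n)) := by
          apply MvPolynomial.ringHom_ext
          · intro r
            simp
          · intro i
            rcases i with j | j
            · simp [pt, ht]
            · simp [pt, ht, hc]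
              ring
        exact congrArg (fun f : MP n →+* ℂ => f P) h3
      rw [← this, eval₂_eq_eval_map]
  have h2 := subB_subA P
  rw [h1, map_zero] at h2
  exact h2.symm


/-! ### density of polynomials on the sphere -/

/-- conjugate polynomial -/
noncomputable def starP (P : MP n) : MP n := rename Sum.swap (map (starRingEnd ℂ) P)

theorem ev_starP (P : MP n) (x : E n) : ev (starP P) x = conj (ev P x) := by
  unfold ev starP
  rw [eval_rename, eval_map]
  have h1 : (pt x ∘ Sum.swap) = fun i => conj (pt x i) := by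
    ext i; rcases i with j | j <;> simp [pt]
  rw [h1]
  have h2 : eval₂ (starRingEnd ℂ) (fun i => conj (pt x i)) P = (starRingEnd ℂ) (eval₂ (RingHom.id ℂ) (pt x) P) := by
    rw [MvPolynomial.hom_eval₂]
    rfl
  rw [h2]
  rfl

/-- the star subalgebra of polynomial functions on the sphere -/
noncomputable def polyAlg (n : ℕ) : StarSubalgebra ℂ C(Metric.sphere (0 : E n) 1, ℂ) where
  carrier := {f | ∃ P : MP n, ∀ x, f x = ev P x}
  mul_mem' := by
    rintro f g ⟨P, hP⟩ ⟨Q, hQ⟩
    exact ⟨P * Q, fun x => by rw [ev_mul, ← hP, ← hQ]; rfl⟩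
  add_mem' := by
    rintro f g ⟨P, hP⟩ ⟨Q, hQ⟩
    exact ⟨P + Q, fun x => by rw [ev_add, ← hP, ← hQ]; rfl⟩
  algebraMap_mem' := by
    intro r
    exact ⟨C r, fun x => by rw [ev_C]; rfl⟩
  star_mem' := by
    rintro f ⟨P, hP⟩
    exact ⟨starP P, fun x => by rw [ev_starP, ← hP]; rfl⟩

theorem dense_poly (f : C(Metric.sphere (0 : E n) 1, ℂ)) {ε : ℝ} (hε : 0 < ε) :
    ∃ P : MP n, ∀ x : Metric.sphere (0 : E n) 1, ‖f x - ev P x‖ < ε := by
  have hs : (polyAlg n).SeparatesPoints := by
    intro x y hxy
    have h1 : ∃ j, (x : E n) j ≠ (y : E n) j := by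
      by_contra h
      push Not at h
      apply hxy
      ext j
      exact h j
    obtain ⟨j, hj⟩ := h1
    have hc : Continuous (fun z : Metric.sphere (0 : E n) 1 => (z : E n) j) := by fun_prop
    refine ⟨fun z => (z : E n) j, ⟨⟨fun z => (z : E n) j, hc⟩, ⟨X (Sum.inl j), fun z => ?_⟩, rfl⟩, hj⟩
    rw [ev_X]; rfl
  have h2 := ContinuousMap.starSubalgebra_topologicalClosure_eq_top_of_separatesPoints (polyAlg n) hs
  have h3 : f ∈ (polyAlg n).topologicalClosure := by rw [h2]; trivial
  have h4 : f ∈ closure ((polyAlg n : StarSubalgebra ℂ C(Metric.sphere (0 : E n) 1, ℂ)) : Set C(Metric.sphere (0 : E n) 1, ℂ)) := h3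
  rw [Metric.mem_closure_iff] at h4
  obtain ⟨g, ⟨P, hP⟩, hg⟩ := h4 ε hε
  refine ⟨P, fun x => ?_⟩
  rw [← hP]
  have := ContinuousMap.dist_apply_le_dist (f := f) (g := g) x
  rw [dist_eq_norm] at this
  linarith

/-! ### the bilinear pairing -/

/-- pairing of two degree-zero homogeneous functions -/
noncomputable def pair (F G : E n → ℂ) : ℂ := ∫ x : E n, (bump (‖x‖ ^ 2) / ‖x‖ ^ 2) • (F x * G x)

theorem pair_integrable {F G : E n → ℂ} (hF : ContinuousOn F {0}ᶜ) (hG : ContinuousOn G {0}ᶜ) :
    Integrable (fun x : E n => (bump (‖x‖ ^ 2) / ‖x‖ ^ 2) • (F x * G x)) :=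
  cut_integrable bump_smul_cut (G := fun x => F x * G x) (hF.mul hG)

theorem pair_congr {F G H : E n → ℂ} (h : ∀ x, x ≠ 0 → G x = H x) : pair F G = pair F H := by
  unfold pair
  apply integral_congr_ae
  filter_upwards with x
  by_cases hx : x = 0
  · subst hx
    have : bump (‖(0 : E n)‖ ^ 2) = 0 := bump_cut.supp _ (by simp)
    rw [this]; simp
  · rw [h x hx]

theorem pair_add_right {F G H : E n → ℂ} (hF : ContinuousOn F {0}ᶜ) (hG : ContinuousOn G {0}ᶜ)
    (hH : ContinuousOn H {0}ᶜ) : pair F (fun x => G x + H x) = pair F G + pair F H := by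
  unfold pair
  rw [← integral_add (pair_integrable hF hG) (pair_integrable hF hH)]
  congr 1
  ext x
  rw [← smul_add]
  congr 1
  ring

theorem pair_comm (F G : E n → ℂ) : pair F G = pair G F := by
  unfold pair
  congr 1
  ext x
  rw [mul_comm]

theorem pair_smul_right (F G : E n → ℂ) (a : ℂ) : pair F (fun x => a * G x) = a * pair F G := by
  unfold pair
  rw [← integral_const_mul]
  congr 1
  ext x
  rw [Complex.real_smul, Complex.real_smul]
  ring

theorem F0_cont (P : MP n) : ContinuousOn (F0 P) {0}ᶜ := (F0_hom0 P).smooth.continuousOn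

theorem F0_add (P Q : MP n) : F0 (P + Q) = fun x => F0 P x + F0 Q x := by
  ext x; simp [F0, ev_add]

theorem F0_smul (a : ℂ) (P : MP n) : F0 (a • P) = fun x => a * F0 P x := by
  ext x; simp [F0, ev_smul]

theorem ev_r2 (x : E n) : ev r2 x = ((‖x‖ ^ 2 : ℝ) : ℂ) := by
  unfold r2
  rw [ev_sum]
  simp only [ev_mul, ev_X]
  have h1 : ∀ j : Fin n, pt x (Sum.inl j) * pt x (Sum.inr j) = ((‖x j‖ ^ 2 : ℝ) : ℂ) := by
    intro j
    simp only [pt, Sum.elim_inl, Sum.elim_inr]
    rw [Complex.mul_conj, Complex.normSq_eq_norm_sq]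
  simp only [h1]
  rw [← Complex.ofReal_sum, EuclideanSpace.norm_eq, Real.sq_sqrt (by positivity)]

theorem F0_r2_mul (P : MP n) {x : E n} (hx : x ≠ 0) : F0 (r2 * P) x = F0 P x := by
  unfold F0
  rw [ev_mul, ev_r2, norm_smul, norm_inv, norm_norm, inv_mul_cancel₀ (norm_ne_zero_iff.mpr hx)]
  simp

/-- if `F` is orthogonal to all harmonic polynomials it is orthogonal to all polynomials -/
theorem orth_all (hn : 0 < n) {F : E n → ℂ} (hF : ContinuousOn F {0}ᶜ)
    (h : ∀ (k : ℕ) (P : MP n), P.IsHomogeneous k → Lap P = 0 → pair F (F0 P) = 0) (P : MP n) :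
    pair F (F0 P) = 0 := by
  have h1 : ∀ (k : ℕ) (P : MP n), P.IsHomogeneous k → pair F (F0 P) = 0 := by
    intro k
    induction k using Nat.strong_induction_on with
    | _ k ih =>
      intro P hP
      by_cases hk : k < 2
      · exact h k P hP (Lap_low hk hP)
      · obtain ⟨m, rfl⟩ : ∃ m, k = m + 2 := ⟨k - 2, by omega⟩
        obtain ⟨H, Q, hH, hL, hQ, hPQ⟩ := decomp hn hP
        rw [hPQ, F0_add, pair_add_right hF (F0_cont H) (F0_cont _), h _ H hH hL,
          pair_congr (G := F0 (r2 * Q)) (H := F0 Q) (fun x hx => F0_r2_mul Q hx), ih m (by omega) Q hQ,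
          add_zero]
  have h2 : ∀ (s : Finset ℕ), pair F (F0 (∑ i ∈ s, homogeneousComponent i P)) = 0 := by
    intro s
    induction s using Finset.induction_on with
    | empty =>
      rw [Finset.sum_empty]
      exact h1 0 0 (isHomogeneous_zero _ _ _)
    | insert a s ha ih =>
      rw [Finset.sum_insert ha, F0_add, pair_add_right hF (F0_cont _) (F0_cont _), ih, add_zero]
      exact h1 a _ (homogeneousComponent_isHomogeneous a P)
  have h3 := h2 (Finset.range (P.totalDegree + 1))
  rwa [sum_homogeneousComponent] at h3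

/-- a degree-zero homogeneous function orthogonal to all polynomials vanishes -/
theorem eq_zero_of_orth {F : E n → ℂ} (hF : Hom0 F) (h : ∀ P : MP n, pair F (F0 P) = 0) {x : E n}
    (hx : x ≠ 0) : F x = 0 := by
  have hFc := hF.smooth.continuousOn
  -- the real integral of the square
  set w : E n → ℝ := fun x => bump (‖x‖ ^ 2) / ‖x‖ ^ 2 with hw
  have hw0 : ∀ x, 0 ≤ w x := fun x => div_nonneg bump.nonneg (by positivity)
  have hsphere : ∀ y : E n, ‖y‖ = 1 → F y = 0 := by
    intro y hy
    by_contra hne
    set g : E n → ℝ := fun x => w x * ‖F x‖ ^ 2 with hg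
    have hnc : ContinuousOn (fun x => ((‖F x‖ : ℝ) : ℂ)) {0}ᶜ :=
      Complex.continuous_ofReal.comp_continuousOn hFc.norm
    have hgC : Continuous (fun x : E n => w x • (((‖F x‖ : ℝ) : ℂ) * ((‖F x‖ : ℝ) : ℂ))) :=
      cut_continuous bump_smul_cut (hnc.mul hnc)
    have hgcont : Continuous g := by
      have := Complex.continuous_re.comp hgC
      convert! this using 1
      ext x
      simp [hg, pow_two]
    have hgsupp : HasCompactSupport g := by
      have h1 := cut_compact bump_smul_cut (fun x : E n => (((‖F x‖ : ℝ) : ℂ) * ((‖F x‖ : ℝ) : ℂ)))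
      apply h1.mono
      intro z hz
      rw [Function.mem_support] at hz ⊢
      intro h2
      apply hz
      have h3 : ((g z : ℝ) : ℂ) = 0 := by
        rw [← h2]
        simp only [hg, hw, Complex.real_smul]
        push_cast
        ring
      exact_mod_cast h3
    have hgnn : 0 ≤ g := fun x => mul_nonneg (hw0 x) (by positivity)
    have hgy : g y ≠ 0 := by
      have hb : bump (1 : ℝ) = 1 := bump.one_of_mem_closedBall (by simp [bump])
      simp only [hg, hw, hy, one_pow, hb]
      simpa using hne
    have hpos : 0 < ∫ x, g x := hgcont.integral_pos_of_hasCompactSupport_nonneg_nonzero hgsupp hgnn hgy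
    -- approximate
    have hfc : Continuous (fun z : Metric.sphere (0 : E n) 1 => conj (F z)) := by
      apply Complex.continuous_conj.comp
      rw [continuous_iff_continuousAt]
      intro z
      have hz : (z : E n) ≠ 0 := by
        intro h0
        have := z.2
        rw [h0] at this
        simp at this
      exact (hFc.continuousAt (isOpen_compl_singleton.mem_nhds hz)).comp continuousAt_subtype_val
    set M : ℝ := ∫ x, w x * ‖F x‖ with hM
    have hnint : Integrable (fun x => w x * ‖F x‖) := by
      have := (cut_integrable bump_smul_cut hFc).norm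
      refine this.congr (Filter.Eventually.of_forall fun x => ?_)
      show ‖(bump (‖x‖ ^ 2) / ‖x‖ ^ 2) • F x‖ = w x * ‖F x‖
      rw [norm_smul, Real.norm_of_nonneg (hw0 x)]
    have hM0 : 0 ≤ M := integral_nonneg (fun x => mul_nonneg (hw0 x) (norm_nonneg _))
    have key : ∀ ε : ℝ, 0 < ε → ∫ x, g x ≤ ε * M := by
      intro ε hε
      obtain ⟨P, hP⟩ := dense_poly ⟨_, hfc⟩ hε
      have h1 : ((∫ x, g x : ℝ) : ℂ) = ∫ x, (w x • (F x * (conj (F x) - F0 P x))) := by
        have h2 : ∫ x, (w x • (F x * (conj (F x) - F0 P x))) =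
            (∫ x, w x • (F x * conj (F x))) - ∫ x, w x • (F x * F0 P x) := by
          have i1 : Integrable (fun x => w x • (F x * conj (F x))) :=
            pair_integrable (G := fun x => conj (F x)) hFc (Complex.continuous_conj.comp_continuousOn hFc)
          have i2 : Integrable (fun x => w x • (F x * F0 P x)) := pair_integrable hFc (F0_cont P)
          rw [← integral_sub i1 i2]
          congr 1
          ext x
          rw [← smul_sub]; congr 1; ring
        have h3 : ∫ x, w x • (F x * F0 P x) = 0 := h P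
        rw [h2, h3, sub_zero, ← integral_complex_ofReal]
        congr 1
        ext x
        rw [Complex.mul_conj, Complex.normSq_eq_norm_sq, Complex.real_smul]
        simp [hg]
      have h4 : ‖∫ x, (w x • (F x * (conj (F x) - F0 P x)))‖ ≤ ∫ x, ε * (w x * ‖F x‖) := by
        apply norm_integral_le_of_norm_le (hnint.const_mul ε)
        filter_upwards with x
        by_cases hx : x = 0
        · subst hx
          have : w 0 = 0 := by simp [hw]
          rw [this]; simp
        · rw [norm_smul, Real.norm_of_nonneg (hw0 x), norm_mul]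
          have h5 : ‖conj (F x) - F0 P x‖ ≤ ε := by
            have hx' : 0 < ‖x‖ := norm_pos_iff.mpr hx
            have h6 : ‖‖x‖⁻¹ • x‖ = 1 := by
              rw [norm_smul, norm_inv, norm_norm, inv_mul_cancel₀ hx'.ne']
            have h7 := hP ⟨‖x‖⁻¹ • x, by simpa using h6⟩
            simp only [ContinuousMap.coe_mk] at h7
            rw [hF.hom _ _ (inv_pos.mpr hx') hx] at h7
            exact h7.le
          have := hw0 x
          nlinarith [mul_nonneg this (norm_nonneg (F x)), norm_nonneg (F x)]
      rw [← h1, integral_const_mul] at h4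
      calc ∫ x, g x ≤ |∫ x, g x| := le_abs_self _
        _ = ‖((∫ x, g x : ℝ) : ℂ)‖ := by rw [Complex.norm_real, Real.norm_eq_abs]
        _ ≤ ε * M := h4
    clear_value M
    obtain ⟨I, hI⟩ : ∃ I, I = ∫ x, g x := ⟨_, rfl⟩
    rw [← hI] at hpos key
    have h8 := key (I / (2 * (M + 1))) (div_pos hpos (by positivity))
    have h9 : I / (2 * (M + 1)) * M < I := by
      rw [div_mul_eq_mul_div, div_lt_iff₀ (by positivity)]
      nlinarith
    linarith
  have hx' : 0 < ‖x‖ := norm_pos_iff.mpr hx
  rw [← hF.hom _ _ (inv_pos.mpr hx') hx]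
  apply hsphere
  rw [norm_smul, norm_inv, norm_norm, inv_mul_cancel₀ hx'.ne']

end Pool.Agent.H21.Sph
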