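import Mathlib
import Pool.Agent.H21.Sph.Complete

set_option autoImplicit false

namespace Pool.Agent.H21.Sph

open MeasureTheory Laplacian InnerProductSpace MvPolynomial Pool.Agent.H21.Lens
open scoped ContDiff ComplexConjugate

variable {n : ℕ}

/-- the `k`-th eigenvalue on the unit sphere of `ℂ^n` -/
noncomputable def lam (n k : ℕ) : ℂ := ((k * (k + 2 * n - 2) : ℝ) : ℂ)

theorem lam_inj (hn : 0 < n) {j k : ℕ} (h : lam n j = lam n k) : j = k := by
  have h1 : (j * (j + 2 * n - 2) : ℝ) = k * (k + 2 * n - 2) := by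
    unfold lam at h
    exact_mod_cast h
  have hn' : (1 : ℝ) ≤ n := by exact_mod_cast hn
  rcases lt_trichotomy j k with h2 | h2 | h2
  · exfalso
    have h3 : (j : ℝ) + 1 ≤ k := by exact_mod_cast h2
    have h4 : (0 : ℝ) ≤ j := by positivity
    nlinarith
  · exact h2
  · exfalso
    have h3 : (k : ℝ) + 1 ≤ j := by exact_mod_cast h2
    have h4 : (0 : ℝ) ≤ k := by positivity
    nlinarith

/-- harmonic homogeneous polynomials of degree `k` -/
noncomputable abbrev HH0 (n k : ℕ) : Submodule ℂ (MP n) := HM (0 : Fin n ⊕ Fin n → ZMod 1) k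

theorem mem_HH0 {k : ℕ} {P : MP n} : P ∈ HH0 n k ↔ P.IsHomogeneous k ∧ Lap P = 0 := by
  unfold HH0 HM
  rw [Submodule.mem_inf, LinearMap.mem_ker, mem_MM_iff]
  constructor
  · rintro ⟨⟨h1, _⟩, h2⟩; exact ⟨h1, h2⟩
  · rintro ⟨h1, h2⟩; exact ⟨⟨h1, fun e _ => by simp⟩, h2⟩

instance finite_HM {q : ℕ} (w : Fin n ⊕ Fin n → ZMod q) (k : ℕ) : Module.Finite ℂ (HM w k) :=
  Submodule.finiteDimensional_of_le (S₂ := MM w k) inf_le_left

theorem F0_eq_zero (hn : 0 < n) {k : ℕ} {P : MP n} (hk : P.IsHomogeneous k)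
    (h : ∀ x : E n, x ≠ 0 → F0 P x = 0) : P = 0 := by
  have h1 : ∀ x : E n, x ≠ 0 → ev P x = 0 := by
    intro x hx
    have hx' : ‖x‖ ≠ 0 := norm_ne_zero_iff.mpr hx
    have h2 := h x hx
    unfold F0 at h2
    rw [ev_smul_real hk] at h2
    rcases mul_eq_zero.mp h2 with h3 | h3
    · exfalso
      have : ((‖x‖⁻¹ : ℝ) : ℂ) ≠ 0 := by
        exact_mod_cast inv_ne_zero hx'
      exact (pow_ne_zero k this) h3
    · exact h3
  apply ev_eq_zero
  intro x
  by_cases hx : x = 0
  · subst hx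
    have : Nonempty (Fin n) := ⟨⟨0, hn⟩⟩
    obtain ⟨v, hv⟩ := exists_ne (0 : E n)
    have h5 : Continuous (fun t : ℝ => ev P (t • v)) := (ev_contDiff P).continuous.comp (by fun_prop)
    have h6 : ∀ t : ℝ, t ≠ 0 → ev P (t • v) = 0 := fun t ht => h1 _ (smul_ne_zero ht hv)
    have h7 : (fun t : ℝ => ev P (t • v)) = fun _ => 0 := by
      apply h5.ext_on (dense_compl_singleton (0 : ℝ)) continuous_const
      intro t ht
      exact h6 t ht
    have h8 := congrFun h7 0
    simpa using h8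
  · exact h1 x hx

/-- orthogonality of `F0 P` and `F0 Q` in different degrees -/
theorem pair_F0_F0 (hn : 0 < n) {j k : ℕ} (hjk : j ≠ k) {P Q : MP n} (hP : P ∈ HH0 n j) (hQ : Q ∈ HH0 n k) :
    pair (F0 P) (F0 Q) = 0 := by
  rw [mem_HH0] at hP hQ
  exact orthogonal (F0_hom0 P) (F0_hom0 Q) (a := lam n j) (b := lam n k)
    (fun x hx => F0_lap hP.1 hP.2 hx) (fun x hx => F0_lap hQ.1 hQ.2 hx)
    (fun h => hjk (lam_inj hn h))

/-- the pairing as a linear map to the dual -/
noncomputable def TD (k : ℕ) : HH0 n k →ₗ[ℂ] Module.Dual ℂ (HH0 n k) :=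
  LinearMap.mk₂ ℂ (fun P Q => pair (F0 P.1) (F0 Q.1))
    (by
      intro P P' Q
      rw [pair_comm, pair_comm (F0 P.1), pair_comm (F0 P'.1)]
      rw [Submodule.coe_add, F0_add]
      exact pair_add_right (F0_cont _) (F0_cont _) (F0_cont _))
    (by
      intro c P Q
      rw [pair_comm, pair_comm (F0 P.1)]
      rw [Submodule.coe_smul, F0_smul, pair_smul_right]; rfl)
    (by
      intro P Q Q'
      rw [Submodule.coe_add, F0_add]
      exact pair_add_right (F0_cont _) (F0_cont _) (F0_cont _))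
    (by
      intro c P Q
      rw [Submodule.coe_smul, F0_smul, pair_smul_right]; rfl)

theorem TD_inj (hn : 0 < n) (k : ℕ) : Function.Injective (TD (n := n) k) := by
  rw [← LinearMap.ker_eq_bot, LinearMap.ker_eq_bot']
  intro P hP
  have h1 : ∀ Q : HH0 n k, pair (F0 P.1) (F0 Q.1) = 0 := by
    intro Q
    exact congrArg (fun f : Module.Dual ℂ (HH0 n k) => f Q) hP
  have h2 : ∀ (j : ℕ) (Q : MP n), Q.IsHomogeneous j → Lap Q = 0 → pair (F0 P.1) (F0 Q) = 0 := by
    intro j Q hQ hL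
    by_cases hjk : k = j
    · subst hjk
      exact h1 ⟨Q, mem_HH0.mpr ⟨hQ, hL⟩⟩
    · exact pair_F0_F0 hn hjk P.2 (mem_HH0.mpr ⟨hQ, hL⟩)
  have h3 := orth_all hn (F0_cont P.1) h2
  have h4 := F0_eq_zero hn (mem_HH0.mp P.2).1 (fun x hx => eq_zero_of_orth (F0_hom0 P.1) h3 hx)
  exact Subtype.ext h4

theorem TD_surj (hn : 0 < n) (k : ℕ) : Function.Surjective (TD (n := n) k) := by
  have := LinearMap.injective_iff_surjective_of_finrank_eq_finrank
    (f := TD (n := n) k) (Subspace.dual_finrank_eq).symm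
  exact this.mp (TD_inj hn k)

theorem Hom0.sub {F G : E n → ℂ} (hF : Hom0 F) (hG : Hom0 G) : Hom0 (fun x => F x - G x) where
  smooth := hF.smooth.sub hG.smooth
  hom := by intro c x hc hx; rw [hF.hom c x hc hx, hG.hom c x hc hx]

theorem two_le_inf : (2 : WithTop ℕ∞) ≤ ∞ := by
  have : ((2 : ℕ∞) : WithTop ℕ∞) ≤ ((⊤ : ℕ∞) : WithTop ℕ∞) := WithTop.coe_le_coe.mpr le_top
  exact this

theorem lap_sub {F G : E n → ℂ} (hF : Hom0 F) (hG : Hom0 G) {x : E n} (hx : x ≠ 0) :
    (Δ (fun x => F x - G x)) x = (Δ F) x - (Δ G) x := by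
  have h := ContDiffAt.laplacian_sub (f₁ := F) (f₂ := G) (x := x)
    ((hF.contDiffAt hx).of_le two_le_inf) ((hG.contDiffAt hx).of_le two_le_inf)
  exact h

/-- Classification of the eigenfunctions of the Laplacian on the unit sphere of `ℂ^n`. -/
theorem classify (hn : 0 < n) {F : E n → ℂ} (hF : Hom0 F) {a : ℂ}
    (ha : ∀ x : E n, ‖x‖ = 1 → (Δ F) x = - a * F x) :
    (∀ x : E n, x ≠ 0 → F x = 0) ∨
      ∃ k : ℕ, a = lam n k ∧ ∃ P ∈ HH0 n k, ∀ x : E n, x ≠ 0 → F x = F0 P x := by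
  by_cases hk : ∃ k : ℕ, a = lam n k
  · right
    obtain ⟨k, hk⟩ := hk
    refine ⟨k, hk, ?_⟩
    have hFc := hF.smooth.continuousOn
    -- the functional
    let φ : Module.Dual ℂ (HH0 n k) :=
      { toFun := fun Q => pair F (F0 Q.1)
        map_add' := by
          intro Q Q'
          rw [Submodule.coe_add, F0_add]
          exact pair_add_right hFc (F0_cont _) (F0_cont _)
        map_smul' := by
          intro c Q
          rw [Submodule.coe_smul, F0_smul, pair_smul_right]; rfl }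
    obtain ⟨P, hP⟩ := TD_surj hn k φ
    refine ⟨P.1, P.2, ?_⟩
    have hPm := mem_HH0.mp P.2
    set G : E n → ℂ := fun x => F x - F0 P.1 x with hG
    have hGH : Hom0 G := hF.sub (F0_hom0 P.1)
    have hGe : ∀ x : E n, ‖x‖ = 1 → (Δ G) x = - a * G x := by
      intro x hx
      have hx0 : x ≠ 0 := by rintro rfl; simp at hx
      rw [hG, lap_sub hF (F0_hom0 P.1) hx0, ha x hx, F0_lap hPm.1 hPm.2 hx]
      rw [hk]; unfold lam; ring
    have h2 : ∀ (j : ℕ) (Q : MP n), Q.IsHomogeneous j → Lap Q = 0 → pair G (F0 Q) = 0 := by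
      intro j Q hQ hL
      by_cases hjk : k = j
      · subst hjk
        have h3 : pair (F0 P.1) (F0 Q) = pair F (F0 Q) :=
          congrArg (fun f : Module.Dual ℂ (HH0 n k) => f ⟨Q, mem_HH0.mpr ⟨hQ, hL⟩⟩) hP
        have h4 : pair F (F0 Q) = pair G (F0 Q) + pair (F0 P.1) (F0 Q) := by
          have h5 : pair (F0 Q) F = pair (F0 Q) (fun x => G x + F0 P.1 x) := by
            apply pair_congr
            intro x _
            simp [hG]
          rw [pair_comm F, h5, pair_add_right (F0_cont Q) hGH.smooth.continuousOn (F0_cont P.1),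
            pair_comm G, pair_comm (F0 P.1)]
        rw [h3] at h4
        linear_combination -h4
      · exact orthogonal hGH (F0_hom0 Q) (a := a) (b := lam n j) hGe
          (fun x hx => F0_lap hQ hL hx) (fun h => hjk (lam_inj hn (hk ▸ h)))
    have h6 := orth_all hn hGH.smooth.continuousOn h2
    intro x hx
    have h7 := eq_zero_of_orth hGH h6 hx
    exact sub_eq_zero.mp h7
  · left
    push Not at hk
    have h2 : ∀ (j : ℕ) (Q : MP n), Q.IsHomogeneous j → Lap Q = 0 → pair F (F0 Q) = 0 := by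
      intro j Q hQ hL
      exact orthogonal hF (F0_hom0 Q) (a := a) (b := lam n j) ha
          (fun x hx => F0_lap hQ hL hx) (hk j)
    have h6 := orth_all hn hF.smooth.continuousOn h2
    intro x hx
    exact eq_zero_of_orth hF h6 hx

end Pool.Agent.H21.Sph
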